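import Mathlib
import Pool.Agent.Lib.MP_8d00da_gt.h42k.KFull
import Pool.Agent.Lib.MP_8d00da_gt.h28k.KLSN

/-!
# The KLS inequality `D_Poin ≤ C D^Lin_Poin` for all log-concave measures
-/

open MeasureTheory

namespace Pool.Agent.Results.MP_8d00da_gt.KLSPoincare

/-- `‖f - ∫ f dμ‖_{L²(μ)} ≤ D · ‖|∇f|‖_{L²(μ)}` for every Lipschitz function `f`.
The Poincaré constant `D_Poin(μ)` of the problem is the least such `D`. -/
def PoincareWith {V : Type*} [NormedAddCommGroup V] [NormedSpace ℝ V] [MeasurableSpace V]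
    (μ : Measure V) (D : ℝ) : Prop :=
  ∀ f : V → ℝ, (∃ L : NNReal, LipschitzWith L f) →
    eLpNorm (fun x => f x - ∫ y, f y ∂μ) 2 μ ≤
      ENNReal.ofReal D * eLpNorm (fun x => ‖fderiv ℝ f x‖) 2 μ

/-- The same inequality tested on linear functions `θ` only (`‖|∇θ|‖_{L²(μ)} = ‖θ‖` for a
probability measure). The constant `D^Lin_Poin(μ)` of the problem is the least such `D`. -/
def LinPoincareWith {V : Type*} [NormedAddCommGroup V] [NormedSpace ℝ V] [MeasurableSpace V]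
    (μ : Measure V) (D : ℝ) : Prop :=
  ∀ θ : V →L[ℝ] ℝ, eLpNorm (fun x => θ x - ∫ y, θ y ∂μ) 2 μ ≤ ENNReal.ofReal (D * ‖θ‖)

/-- `h` is log-concave. -/
def LogConcave {V : Type*} [AddCommGroup V] [Module ℝ V] (h : V → ℝ) : Prop :=
  ∀ (x y : V) (a b : ℝ), 0 ≤ a → 0 ≤ b → a + b = 1 → h x ^ a * h y ^ b ≤ h (a • x + b • y)

/-- **The KLS inequality for all log-concave probability measures on `ℝⁿ`, in the Poincaré
form:** `D_Poin(μ) ≤ C D^Lin_Poin(μ)` with a universal constant `C`. -/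
theorem result : ∃ C : ℝ, 0 < C ∧ ∀ (n : ℕ) (h : EuclideanSpace ℝ (Fin n) → ℝ),
    (∀ x, 0 ≤ h x) → Measurable h → LogConcave h →
    ∀ μ : Measure (EuclideanSpace ℝ (Fin n)),
      μ = volume.withDensity (fun x => ENNReal.ofReal (h x)) → IsProbabilityMeasure μ →
      ∀ D : ℝ, LinPoincareWith μ D → PoincareWith μ (C * D) := by
  obtain ⟨C, hC, hP⟩ := Pool.Agent.Lib.MP_8d00da_gt.h28k.klsn
  exact Pool.Agent.Lib.MP_8d00da_gt.h42k.kls_full_of_KLSN ⟨C, hC, fun n => hP (Fin n)⟩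

end Pool.Agent.Results.MP_8d00da_gt.KLSPoincare
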